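import Mathlib

set_option autoImplicit false

open scoped ENNReal
open Filter

namespace Pool.Agent.Results.MP_5b767b_an.AmenableCover

/-! ### Definitions (following the problem file) -/

/-- A weighted graph: vertices `V`, edges `E`, every edge `e` has an unordered pair `ends e` of
endpoints (multiple edges and loops are allowed), and there is a complex weight `wt v e` for every
incident pair `(v, e)`. -/
structure WGraph where
  /-- vertices -/
  V : Type
  /-- edges -/
  E : Type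
  /-- endpoints of an edge -/
  ends : E → Sym2 V
  /-- weights of incident pairs -/
  wt : ∀ v : V, {e : E // v ∈ ends e} → ℂ

/-- The spectrum of a bounded operator `H` on a complex Hilbert space. -/
def opSpectrum {E : Type} [NormedAddCommGroup E] [InnerProductSpace ℂ E] (H : E →L[ℂ] E) : Set ℂ :=
  spectrum ℂ H

namespace WGraph

variable (Γ : WGraph)

/-- `E_v`, the set of edges at `v` (a loop at `v` is counted once). -/
abbrev Star (v : Γ.V) : Type := {e : Γ.E // v ∈ Γ.ends e}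

/-- `r_v(e)`, the other endpoint of `e` (equal to `v` for a loop). -/
noncomputable def other (v : Γ.V) (e : Γ.Star v) : Γ.V := Sym2.Mem.other e.2

/-- Uniformly bounded: degrees are uniformly bounded and so are the weights. -/
def UniformlyBounded : Prop :=
  (∃ D : ℕ, ∀ v, Finite (Γ.Star v) ∧ Nat.card (Γ.Star v) ≤ D) ∧
    ∃ M : ℝ, ∀ (v : Γ.V) (e : Γ.Star v), ‖Γ.wt v e‖ ≤ M

/-- `u` and `v` are joined by an edge. -/
def Adj (u v : Γ.V) : Prop := ∃ e : Γ.E, Γ.ends e = s(u, v)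

/-- Connectedness: there is a vertex, and any two vertices are joined by a finite path of edges. -/
def Connected : Prop := Nonempty Γ.V ∧ ∀ u v : Γ.V, Relation.ReflTransGen Γ.Adj u v

/-- `B_1(A)`: the vertices at graph distance at most one from `A`. -/
def ball1 (A : Set Γ.V) : Set Γ.V := {v | v ∈ A ∨ ∃ u ∈ A, Γ.Adj u v}

/-- Amenability: finite sets `F 0 ⊆ F 1 ⊆ …` exhausting the vertex set, with
`|B_1(F k) \ F k| / |F k| → 0`. -/
def Amenable : Prop :=
  ∃ F : ℕ → Finset Γ.V, Monotone F ∧ (∀ v, ∃ k, v ∈ F k) ∧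
    Tendsto (fun k => ((Γ.ball1 (F k) \ (F k : Set Γ.V)).ncard : ℝ) / ((F k).card : ℝ))
      atTop (nhds 0)

/-- Uniform amenability: for every `ε > 0` there is `n` such that every vertex `v` lies in a set `F`
of at most `n` vertices with `|B_1(F) \ F| ≤ ε |F|`. -/
def UniformlyAmenable : Prop :=
  ∀ ε : ℝ, 0 < ε → ∃ n : ℕ, ∀ v : Γ.V, ∃ F : Finset Γ.V, v ∈ F ∧ F.card ≤ n ∧
    ((Γ.ball1 F \ (F : Set Γ.V)).ncard : ℝ) ≤ ε * (F.card : ℝ)

/-- The graph is simple (no loops, no multiple edges) and all weights are equal to `1`. -/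
def IsSimpleUnweighted : Prop :=
  (∀ e, ¬ (Γ.ends e).IsDiag) ∧ Function.Injective Γ.ends ∧ ∀ (v : Γ.V) (e : Γ.Star v), Γ.wt v e = 1

/-- The Hilbert space `ℓ²(V)`. -/
abbrev l2 : Type := lp (fun _ : Γ.V => ℂ) 2

/-- Bounded linear operators on `ℓ²(V)`. -/
abbrev Op : Type := Γ.l2 →L[ℂ] Γ.l2

/-- The value `f v` of `f ∈ ℓ²(V)` at the vertex `v`. -/
def val (f : Γ.l2) (v : Γ.V) : ℂ := f v

/-- The image `H f` of `f ∈ ℓ²(V)` under the bounded operator `H`. -/
noncomputable def ap (H : Γ.Op) (f : Γ.l2) : Γ.l2 := H f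

/-- `H` is the Laplace type operator of `Γ`:
`(H f)(v) = ∑_{e ∈ E_v} α_{v,e} f(r_v(e))`. -/
def IsLaplace (H : Γ.Op) : Prop :=
  ∀ (f : Γ.l2) (v : Γ.V), Γ.val (Γ.ap H f) v = ∑ᶠ e : Γ.Star v, Γ.wt v e * Γ.val f (Γ.other v e)

end WGraph

/-- The pair of maps `φV : V₁ → V₂`, `φE : E₁ → E₂` is a covering of weighted graphs `Γ₁ → Γ₂`. -/
structure IsCovering (Γ₁ Γ₂ : WGraph) (φV : Γ₁.V → Γ₂.V) (φE : Γ₁.E → Γ₂.E) : Prop where
  /-- surjective on vertices -/
  surjV : Function.Surjective φV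
  /-- surjective on edges -/
  surjE : Function.Surjective φE
  /-- the endpoints of `φE e` are the images of the endpoints of `e` -/
  ends : ∀ e, Γ₂.ends (φE e) = (Γ₁.ends e).map φV
  /-- `E_v` is mapped bijectively onto `E_{φ(v)}` -/
  star : ∀ v : Γ₁.V, Set.BijOn φE {e | v ∈ Γ₁.ends e} {e | φV v ∈ Γ₂.ends e}
  /-- weights are preserved -/
  weight : ∀ (v : Γ₁.V) (e : Γ₁.E) (h₁ : v ∈ Γ₁.ends e) (h₂ : φV v ∈ Γ₂.ends (φE e)),
    Γ₁.wt v ⟨e, h₁⟩ = Γ₂.wt (φV v) ⟨φE e, h₂⟩

/-! ### The Schur test for adjacency operators -/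

section Schur
variable {V : Type} (nbr : V → Finset V) (hsymm : ∀ u v, u ∈ nbr v ↔ v ∈ nbr u)

include hsymm in
lemma tsum_swap (F : V → V → ℝ≥0∞) :
    (∑' v, ∑ u ∈ nbr v, F v u) = ∑' u, ∑ v ∈ nbr u, F v u := by
  classical
  have h1 : ∀ v, (∑ u ∈ nbr v, F v u) = ∑' u, (if u ∈ nbr v then F v u else 0) := by
    intro v
    rw [tsum_eq_sum (s := nbr v)]
    · exact Finset.sum_congr rfl (fun u hu => by simp [hu])
    · intro u hu; simp [hu]
  have h2 : ∀ u, (∑ v ∈ nbr u, F v u) = ∑' v, (if u ∈ nbr v then F v u else 0) := by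
    intro u
    rw [tsum_eq_sum (s := nbr u)]
    · exact Finset.sum_congr rfl (fun v hv => by simp [(hsymm u v).2 hv])
    · intro v hv
      have : ¬ u ∈ nbr v := fun h => hv ((hsymm u v).1 h)
      simp [this]
  simp_rw [h1, h2]
  rw [ENNReal.tsum_comm]

include hsymm in
lemma schur_ennreal (h : V → ℝ) (hpos : ∀ v, 0 < h v) (c : ℝ) (hc : 0 ≤ c)
    (hsum : ∀ v, ∑ u ∈ nbr v, h u ≤ c * h v) (f : V → ℂ) :
    (∑' v, ENNReal.ofReal (‖∑ u ∈ nbr v, f u‖ ^ 2)) ≤
      ENNReal.ofReal (c ^ 2) * ∑' v, ENNReal.ofReal (‖f v‖ ^ 2) := by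
  have h1 : ∀ v, ‖∑ u ∈ nbr v, f u‖ ^ 2 ≤ c * ∑ u ∈ nbr v, h v * (‖f u‖ ^ 2 / h u) := by
    intro v
    have hle : ‖∑ u ∈ nbr v, f u‖ ≤ ∑ u ∈ nbr v, ‖f u‖ := norm_sum_le _ _
    have hCS : (∑ u ∈ nbr v, ‖f u‖) ^ 2 ≤ (∑ u ∈ nbr v, h u) * ∑ u ∈ nbr v, (‖f u‖ ^ 2 / h u) := by
      apply Finset.sum_sq_le_sum_mul_sum_of_sq_le_mul
      · intro i _; exact (hpos i).le
      · intro i _; have := hpos i; positivity
      · intro i _
        have := (hpos i).ne'
        rw [mul_div_cancel₀ _ this]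
    have h0 : 0 ≤ ∑ u ∈ nbr v, (‖f u‖ ^ 2 / h u) :=
      Finset.sum_nonneg (fun i _ => by have := hpos i; positivity)
    calc ‖∑ u ∈ nbr v, f u‖ ^ 2 ≤ (∑ u ∈ nbr v, ‖f u‖) ^ 2 := by
          gcongr
      _ ≤ (∑ u ∈ nbr v, h u) * ∑ u ∈ nbr v, (‖f u‖ ^ 2 / h u) := hCS
      _ ≤ (c * h v) * ∑ u ∈ nbr v, (‖f u‖ ^ 2 / h u) := by
          exact mul_le_mul_of_nonneg_right (hsum v) h0
      _ = c * ∑ u ∈ nbr v, h v * (‖f u‖ ^ 2 / h u) := by
          rw [← Finset.mul_sum]; ring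
  calc (∑' v, ENNReal.ofReal (‖∑ u ∈ nbr v, f u‖ ^ 2))
      ≤ ∑' v, ENNReal.ofReal (c * ∑ u ∈ nbr v, h v * (‖f u‖ ^ 2 / h u)) :=
        ENNReal.tsum_le_tsum (fun v => ENNReal.ofReal_le_ofReal (h1 v))
    _ = ENNReal.ofReal c * ∑' v, ∑ u ∈ nbr v, ENNReal.ofReal (h v * (‖f u‖ ^ 2 / h u)) := by
        rw [← ENNReal.tsum_mul_left]
        congr 1; ext v
        rw [ENNReal.ofReal_mul hc, ENNReal.ofReal_sum_of_nonneg]
        intro i _
        have := hpos i; have := hpos v; positivity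
    _ = ENNReal.ofReal c * ∑' u, ∑ v ∈ nbr u, ENNReal.ofReal (h v * (‖f u‖ ^ 2 / h u)) := by
        rw [tsum_swap nbr hsymm (fun v u => ENNReal.ofReal (h v * (‖f u‖ ^ 2 / h u)))]
    _ ≤ ENNReal.ofReal c * ∑' u, ENNReal.ofReal (c * ‖f u‖ ^ 2) := by
        gcongr with u
        rw [← ENNReal.ofReal_sum_of_nonneg]
        · apply ENNReal.ofReal_le_ofReal
          rw [← Finset.sum_mul]
          have hu := hpos u
          calc (∑ v ∈ nbr u, h v) * (‖f u‖ ^ 2 / h u) ≤ (c * h u) * (‖f u‖ ^ 2 / h u) := by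
                apply mul_le_mul_of_nonneg_right (hsum u); positivity
            _ = c * ‖f u‖ ^ 2 := by field_simp
        · intro i _
          have := hpos i; have := hpos u; positivity
    _ = ENNReal.ofReal (c ^ 2) * ∑' v, ENNReal.ofReal (‖f v‖ ^ 2) := by
        simp_rw [ENNReal.ofReal_mul hc]
        rw [ENNReal.tsum_mul_left, ← mul_assoc, ← ENNReal.ofReal_mul hc, sq]

lemma two_toReal : ((2 : ℝ≥0∞)).toReal = 2 := by norm_num

lemma lp_norm_sq (f : lp (fun _ : V => ℂ) 2) :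
    ENNReal.ofReal (‖f‖ ^ 2) = ∑' v, ENNReal.ofReal (‖f v‖ ^ 2) := by
  have h := lp.norm_rpow_eq_tsum (p := 2) (by norm_num) f
  simp only [two_toReal, Real.rpow_two] at h
  rw [h, ENNReal.ofReal_tsum_of_nonneg (fun _ => by positivity)]
  have h2 := (memℓp_gen_iff (p := 2) (by norm_num)).1 (lp.memℓp f)
  simpa using h2

lemma memlp_of_lt (f : V → ℂ) (h : ∑' v, ENNReal.ofReal (‖f v‖ ^ 2) ≠ ⊤) :
    Memℓp f 2 := by
  apply memℓp_gen
  have := ENNReal.summable_toReal h
  simp only [two_toReal, Real.rpow_two]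
  refine this.congr (fun v => ?_)
  rw [ENNReal.toReal_ofReal (by positivity)]

include hsymm in
lemma memlp_adj (h : V → ℝ) (hpos : ∀ v, 0 < h v) (c : ℝ) (hc : 0 ≤ c)
    (hsum : ∀ v, ∑ u ∈ nbr v, h u ≤ c * h v) (f : lp (fun _ : V => ℂ) 2) :
    Memℓp (fun v => ∑ u ∈ nbr v, f u) 2 := by
  apply memlp_of_lt
  have := schur_ennreal nbr hsymm h hpos c hc hsum f
  rw [← lp_norm_sq f] at this
  exact ne_top_of_le_ne_top (ENNReal.mul_ne_top ENNReal.ofReal_ne_top ENNReal.ofReal_ne_top) this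

/-- the adjacency operator as a linear map -/
noncomputable def adjLin (h : V → ℝ) (hpos : ∀ v, 0 < h v) (c : ℝ) (hc : 0 ≤ c)
    (hsum : ∀ v, ∑ u ∈ nbr v, h u ≤ c * h v) :
    lp (fun _ : V => ℂ) 2 →ₗ[ℂ] lp (fun _ : V => ℂ) 2 where
  toFun f := ⟨fun v => ∑ u ∈ nbr v, f u, memlp_adj nbr hsymm h hpos c hc hsum f⟩
  map_add' f g := by
    apply lp.ext; funext v; exact Finset.sum_add_distrib
  map_smul' a f := by
    apply lp.ext; funext v; simp [Finset.mul_sum]

include hsymm in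
theorem exists_adjOp (h : V → ℝ) (hpos : ∀ v, 0 < h v) (c : ℝ) (hc : 0 ≤ c)
    (hsum : ∀ v, ∑ u ∈ nbr v, h u ≤ c * h v) :
    ∃ A : lp (fun _ : V => ℂ) 2 →L[ℂ] lp (fun _ : V => ℂ) 2,
      (∀ f v, A f v = ∑ u ∈ nbr v, f u) ∧ ‖A‖ ≤ c := by
  have hb : ∀ f, ‖adjLin nbr hsymm h hpos c hc hsum f‖ ≤ c * ‖f‖ := by
    intro f
    have h1 := schur_ennreal nbr hsymm h hpos c hc hsum f
    have h2 := lp_norm_sq (adjLin nbr hsymm h hpos c hc hsum f)
    have h3 : ∑' v, ENNReal.ofReal (‖(adjLin nbr hsymm h hpos c hc hsum f) v‖ ^ 2)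
        = ∑' v, ENNReal.ofReal (‖∑ u ∈ nbr v, f u‖ ^ 2) := rfl
    rw [h3] at h2
    rw [← h2, ← lp_norm_sq f, ← ENNReal.ofReal_mul (by positivity)] at h1
    have h4 := (ENNReal.ofReal_le_ofReal_iff (by positivity)).1 h1
    have h5 : ‖adjLin nbr hsymm h hpos c hc hsum f‖ ^ 2 ≤ (c * ‖f‖) ^ 2 := by
      rw [mul_pow]; exact h4
    exact (sq_le_sq₀ (norm_nonneg _) (by positivity)).1 h5
  exact ⟨(adjLin nbr hsymm h hpos c hc hsum).mkContinuous c hb, fun f v => rfl,
    LinearMap.mkContinuous_norm_le _ hc _⟩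

include hsymm in
theorem adjOp_selfAdjoint (A : lp (fun _ : V => ℂ) 2 →L[ℂ] lp (fun _ : V => ℂ) 2)
    (hA : ∀ f v, A f v = ∑ u ∈ nbr v, f u) : IsSelfAdjoint A := by
  classical
  rw [ContinuousLinearMap.isSelfAdjoint_iff']
  apply lp.ext_continuousLinearMap (by norm_num)
  intro i
  apply ContinuousLinearMap.ext_ring
  simp only [ContinuousLinearMap.comp_apply]
  apply lp.ext
  funext j
  have h1 : ∀ g : lp (fun _ : V => ℂ) 2, g j = inner ℂ (lp.single 2 j (1 : ℂ)) g := by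
    intro g; rw [lp.inner_single_left]; simp
  rw [h1 (ContinuousLinearMap.adjoint A _), ContinuousLinearMap.adjoint_inner_right]
  have h2 : ∀ (f : lp (fun _ : V => ℂ) 2) (a : ℂ),
      inner ℂ f (lp.single 2 i a) = (starRingEnd ℂ) (f i) * a := by
    intro f a; rw [lp.inner_single_right]; simp [mul_comm]
  change inner ℂ (A (lp.single 2 j 1)) (lp.single 2 i (1:ℂ)) = (A (lp.single 2 i (1:ℂ))) j
  rw [h2, hA, hA]
  simp only [lp.single_apply, Pi.single_apply, Finset.sum_ite_eq']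
  by_cases h : j ∈ nbr i
  · have h' := (hsymm j i).1 h
    simp [h, h']
  · have h' : ¬ i ∈ nbr j := fun h'' => h ((hsymm j i).2 h'')
    simp [h, h']

end Schur

/-! ### Reduced words in five letters (the vertices of the 5-regular tree) -/

/-- reduced words in five letters -/
abbrev Word : Type := {w : List (Fin 5) // w.IsChain (· ≠ ·)}

namespace Word

/-- left multiplication by the involution `i` -/
def toggle (i : Fin 5) : Word → Word
  | ⟨[], _⟩ => ⟨[i], List.isChain_singleton i⟩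
  | ⟨a :: l, h⟩ => if hi : i = a then ⟨l, h.tail⟩ else ⟨i :: a :: l, List.isChain_cons_cons.2 ⟨hi, h⟩⟩

lemma toggle_toggle (i : Fin 5) (w : Word) : toggle i (toggle i w) = w := by
  rcases w with ⟨w, hw⟩
  cases w with
  | nil => simp [toggle]
  | cons a l =>
    by_cases hi : i = a
    · subst hi
      cases l with
      | nil => simp [toggle]
      | cons b l' =>
        have hne : i ≠ b := (List.isChain_cons_cons.1 hw).1
        simp [toggle, hne]
    · simp [toggle, hi]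

lemma toggle_length_parity (i : Fin 5) (w : Word) : (toggle i w).1.length % 2 ≠ w.1.length % 2 := by
  rcases w with ⟨w, hw⟩
  cases w with
  | nil => simp [toggle]
  | cons a l =>
    by_cases hi : i = a
    · simp [toggle, hi]; omega
    · simp [toggle, hi]; omega

lemma toggle_length_le (i : Fin 5) (w : Word) : (toggle i w).1.length ≤ w.1.length + 1 := by
  rcases w with ⟨w, hw⟩
  cases w with
  | nil => simp [toggle]
  | cons a l =>
    by_cases hi : i = a
    · simp [toggle, hi]; omega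
    · simp [toggle, hi]

lemma toggle_ne (i : Fin 5) (w : Word) : toggle i w ≠ w := by
  intro h
  exact toggle_length_parity i w (by rw [h])

lemma toggle_inj (w : Word) : Function.Injective (fun i => toggle i w) := by
  intro i j hij
  rcases w with ⟨w, hw⟩
  have hval := congrArg Subtype.val hij
  have hlen := congrArg List.length hval
  cases w with
  | nil =>
    simp [toggle] at hval
    exact hval
  | cons a l =>
    by_cases hi : i = a
    · by_cases hj : j = a
      · rw [hi, hj]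
      · exfalso
        simp [toggle, hi, hj] at hlen
        try omega
    · by_cases hj : j = a
      · exfalso
        simp [toggle, hi, hj] at hlen
        try omega
      · simp [toggle, hi, hj] at hval
        exact hval

lemma sum_pow (w : Word) (r : ℝ) (hr : 0 < r) (hr2 : 5 * r ^ 2 = 1) :
    ∑ i, r ^ (toggle i w).1.length ≤ (r⁻¹ + 4 * r) * r ^ w.1.length := by
  have hr1 : r ≤ 1 := by nlinarith
  rcases w with ⟨w, hw⟩
  cases w with
  | nil =>
    simp [toggle]
    have : r ≤ r⁻¹ := by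
      rw [le_inv_comm₀ hr hr]
      have : 1 ≤ r⁻¹ := (one_le_inv₀ hr).2 hr1
      linarith
    linarith
  | cons a l =>
    have h1 : ∀ i, r ^ (toggle i ⟨a :: l, hw⟩).1.length =
        if i = a then r⁻¹ * r ^ (a :: l).length else r * r ^ (a :: l).length := by
      intro i
      by_cases hi : i = a
      · simp [toggle, hi, pow_succ]; field_simp
      · simp [toggle, hi, pow_succ]; ring
    simp_rw [h1]
    rw [Finset.sum_ite]
    simp only [Finset.sum_const, nsmul_eq_mul]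
    have e1 : (Finset.univ.filter (fun i : Fin 5 => i = a)).card = 1 := by
      rw [Finset.filter_eq']; simp
    have e2 : (Finset.univ.filter (fun i : Fin 5 => ¬ i = a)).card = 4 := by
      rw [Finset.filter_ne']; simp
    rw [e1, e2]
    push_cast
    apply le_of_eq; ring

end Word

/-- flip a coordinate -/
def flip5 (i : Fin 5) (x : Fin 5 → Bool) : Fin 5 → Bool := Function.update x i (!x i)

lemma flip5_flip5 (i : Fin 5) (x : Fin 5 → Bool) : flip5 i (flip5 i x) = x := by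
  simp [flip5]

lemma flip5_ne (i : Fin 5) (x : Fin 5 → Bool) : flip5 i x ≠ x := by
  intro h
  have := congrFun h i
  simp [flip5] at this

lemma flip5_inj (x : Fin 5 → Bool) : Function.Injective (fun i => flip5 i x) := by
  intro i j h
  by_contra hne
  have := congrFun h i
  simp [flip5, hne] at this

/-- the covering map from the tree to the cube -/
def cov (w : Word) : Fin 5 → Bool := w.1.foldr flip5 (fun _ => false)

lemma cov_toggle (i : Fin 5) (w : Word) : cov (Word.toggle i w) = flip5 i (cov w) := by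
  rcases w with ⟨w, hw⟩
  cases w with
  | nil => simp [Word.toggle, cov]
  | cons a l =>
    by_cases hi : i = a
    · subst hi
      simp [Word.toggle, cov, flip5_flip5]
    · simp [Word.toggle, cov, hi]

lemma cov_surj : Function.Surjective cov := by
  intro x
  have h1 : ∀ x : Fin 5 → Bool, ((List.finRange 5).filter (fun i => x i)).IsChain (· ≠ ·) := by
    decide
  have h2 : ∀ x : Fin 5 → Bool,
      ((List.finRange 5).filter (fun i => x i)).foldr flip5 (fun _ => false) = x := by decide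
  exact ⟨⟨_, h1 x⟩, h2 x⟩

/-! ### Simple graphs as weighted graphs -/

/-- a simple graph with all weights equal to one -/
def ofSimple {V : Type} (G : SimpleGraph V) : WGraph where
  V := V
  E := G.edgeSet
  ends := fun e => e.1
  wt := fun _ _ => 1

section Simple
variable {V : Type} (G : SimpleGraph V) (nbr : V → Finset V) (hn : ∀ u v, u ∈ nbr v ↔ G.Adj v u)

/-- the bijection between the star and the neighbours -/
noncomputable def toNbr (v : V) (e : (ofSimple G).Star v) : {u : V // G.Adj v u} :=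
  ⟨(ofSimple G).other v e, by
    have h := e.1.2
    have h2 : s(v, (ofSimple G).other v e) = e.1.1 := Sym2.other_spec e.2
    rw [← h2] at h
    exact h⟩

lemma toNbr_spec (v : V) (e : (ofSimple G).Star v) : s(v, (toNbr G v e).1) = e.1.1 :=
  Sym2.other_spec e.2

lemma toNbr_bij (v : V) : Function.Bijective (toNbr G v) := by
  constructor
  · intro e e' h
    apply Subtype.ext
    apply Subtype.ext
    rw [← toNbr_spec G v e, ← toNbr_spec G v e', h]
  · intro u
    refine ⟨⟨⟨s(v, u.1), u.2⟩, Sym2.mem_mk_left v u.1⟩, ?_⟩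
    apply Subtype.ext
    have h := toNbr_spec G v ⟨⟨s(v, u.1), u.2⟩, Sym2.mem_mk_left v u.1⟩
    exact Sym2.congr_right.1 h

include hn in
lemma simple_laplace (H : lp (fun _ : V => ℂ) 2 →L[ℂ] lp (fun _ : V => ℂ) 2)
    (hH : ∀ f v, H f v = ∑ u ∈ nbr v, f u) : (ofSimple G).IsLaplace H := by
  classical
  intro f v
  refine (hH f v).trans ?_
  change (∑ u ∈ nbr v, f u) = ∑ᶠ e : (ofSimple G).Star v, (1 : ℂ) * f ((toNbr G v e).1)
  have h1 : ∑ᶠ e : (ofSimple G).Star v, (1 : ℂ) * f ((toNbr G v e).1)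
      = ∑ᶠ u : {u : V // G.Adj v u}, (1 : ℂ) * f u.1 :=
    finsum_eq_of_bijective (toNbr G v) (toNbr_bij G v) (fun _ => rfl)
  have h2 : ∑ᶠ u : {u : V // G.Adj v u}, (1 : ℂ) * f u.1
      = ∑ᶠ u : {u : V // u ∈ nbr v}, (1 : ℂ) * f u.1 :=
    finsum_eq_of_bijective (Equiv.subtypeEquivRight (fun u => (hn u v).symm))
      (Equiv.bijective _) (fun _ => rfl)
  rw [h1, h2, finsum_eq_sum_of_fintype]
  simp only [one_mul]
  exact (Finset.sum_coe_sort (nbr v) (fun u => f u)).symm

include hn in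
lemma simple_uniformlyBounded (D : ℕ) (hD : ∀ v, (nbr v).card ≤ D) :
    (ofSimple G).UniformlyBounded := by
  classical
  refine ⟨⟨D, fun v => ?_⟩, 1, fun v e => by simp [ofSimple]⟩
  have e1 : (ofSimple G).Star v ≃ {u : V // u ∈ nbr v} :=
    (Equiv.ofBijective _ (toNbr_bij G v)).trans (Equiv.subtypeEquivRight (fun u => (hn u v).symm))
  constructor
  · exact Finite.of_equiv _ e1.symm
  · rw [Nat.card_congr e1]
    simpa using hD v

lemma simple_isSimple : (ofSimple G).IsSimpleUnweighted := by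
  refine ⟨fun e => ?_, Subtype.val_injective, fun _ _ => rfl⟩
  exact G.not_isDiag_of_mem_edgeSet e.2

lemma simple_adj (u v : V) : (ofSimple G).Adj u v ↔ G.Adj u v := by
  constructor
  · rintro ⟨e, he⟩
    have h := e.2
    change e.1 = s(u, v) at he
    rw [he] at h
    exact h
  · intro h
    exact ⟨⟨s(u, v), h⟩, rfl⟩

/-- the outer vertex boundary -/
def bdry (A : Set V) : Set V := {v | v ∉ A ∧ ∃ u ∈ A, G.Adj u v}

lemma ball1_diff (A : Set V) : ((ofSimple G).ball1 A \ A : Set V) = bdry G A := by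
  apply Set.ext
  intro v
  constructor
  · rintro ⟨h1 | ⟨u, hu, hadj⟩, h2⟩
    · exact absurd h1 h2
    · exact ⟨h2, u, hu, (simple_adj G u v).1 hadj⟩
  · rintro ⟨h2, u, hu, hadj⟩
    exact ⟨Or.inr ⟨u, hu, (simple_adj G u v).2 hadj⟩, h2⟩

lemma simple_amenable (F : ℕ → Finset V) (hF : Monotone F) (hV : ∀ v, ∃ k, v ∈ F k)
    (hlim : Tendsto (fun k => ((bdry G (F k : Set V)).ncard : ℝ) / ((F k).card : ℝ)) atTop (nhds 0)) :
    (ofSimple G).Amenable := by
  refine ⟨F, hF, hV, ?_⟩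
  refine hlim.congr (fun k => ?_)
  rw [← ball1_diff]
  rfl

lemma simple_uniformlyAmenable (h : ∀ ε : ℝ, 0 < ε → ∃ n : ℕ, ∀ v : V, ∃ F : Finset V,
    v ∈ F ∧ F.card ≤ n ∧ ((bdry G (F : Set V)).ncard : ℝ) ≤ ε * (F.card : ℝ)) :
    (ofSimple G).UniformlyAmenable := by
  intro ε hε
  obtain ⟨n, hn⟩ := h ε hε
  refine ⟨n, fun v => ?_⟩
  obtain ⟨F, h1, h2, h3⟩ := hn v
  refine ⟨F, h1, h2, ?_⟩
  rw [← ball1_diff] at h3
  exact h3

end Simple

section Cov
variable {V₁ V₂ : Type} (G₁ : SimpleGraph V₁) (G₂ : SimpleGraph V₂) (φ : V₁ → V₂)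
  (hom : ∀ u v, G₁.Adj u v → G₂.Adj (φ u) (φ v))

/-- the induced map on edges -/
def edgeMap (e : G₁.edgeSet) : G₂.edgeSet :=
  ⟨e.1.map φ, by
    rcases e with ⟨e, he⟩
    induction e using Sym2.ind with
    | _ x y => exact hom x y he⟩

lemma simple_covering (surj : Function.Surjective φ)
    (inj : ∀ v u u', G₁.Adj v u → G₁.Adj v u' → φ u = φ u' → u = u')
    (lift : ∀ v y, G₂.Adj (φ v) y → ∃ u, G₁.Adj v u ∧ φ u = y) :
    IsCovering (ofSimple G₁) (ofSimple G₂) φ (edgeMap G₁ G₂ φ hom) := by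
  have hstar : ∀ (v : V₁) (e : G₂.edgeSet), φ v ∈ e.1 →
      ∃ e' : G₁.edgeSet, v ∈ e'.1 ∧ edgeMap G₁ G₂ φ hom e' = e := by
    intro v e hv
    obtain ⟨y, hy⟩ := hv
    have h := e.2
    rw [hy] at h
    obtain ⟨u, hu, rfl⟩ := lift v y h
    refine ⟨⟨s(v, u), hu⟩, Sym2.mem_mk_left v u, ?_⟩
    apply Subtype.ext
    rw [hy]
    rfl
  refine ⟨surj, ?_, fun e => rfl, fun v => ⟨?_, ?_, ?_⟩, fun _ _ _ _ => rfl⟩
  · intro e
    obtain ⟨x, hx⟩ : ∃ x, x ∈ e.1 := by
      rcases e with ⟨e, he⟩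
      induction e using Sym2.ind with
      | _ x y => exact ⟨x, Sym2.mem_mk_left x y⟩
    obtain ⟨v, rfl⟩ := surj x
    obtain ⟨e', _, he'⟩ := hstar v e hx
    exact ⟨e', he'⟩
  · intro e he
    exact Sym2.mem_map.2 ⟨v, he, rfl⟩
  · rintro e ⟨u, hu⟩ e' ⟨u', hu'⟩ h
    change e.1 = s(v, u) at hu
    change e'.1 = s(v, u') at hu'
    have h1 := congrArg Subtype.val h
    change e.1.map φ = e'.1.map φ at h1
    have he := e.2
    have he' := e'.2
    rw [hu] at he
    rw [hu'] at he'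
    rw [hu, hu'] at h1
    have h2 : φ u = φ u' := Sym2.congr_right.1 h1
    have h3 := inj v u u' he he' h2
    apply Subtype.ext
    rw [hu, hu', h3]
  · intro e he
    obtain ⟨e', h1, h2⟩ := hstar v e he
    exact ⟨e', h1, h2⟩

end Cov

/-! ### Attaching rays -/

section Ray

/-- The graph with vertex set `T × ℕ`: on `T × {0}` the Cayley type graph of the five
involutions `τ i`, and a ray attached to every point of `T`. -/
def rayGraph {T : Type} (τ : Fin 5 → T → T) (hinv : ∀ i x, τ i (τ i x) = x)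
    (hne : ∀ i x, τ i x ≠ x) : SimpleGraph (T × ℕ) where
  Adj p q := (p.2 = 0 ∧ q.2 = 0 ∧ ∃ i, q.1 = τ i p.1) ∨ (p.1 = q.1 ∧ (q.2 = p.2 + 1 ∨ p.2 = q.2 + 1))
  symm := ⟨by
    rintro p q (⟨h1, h2, i, hi⟩ | ⟨h1, h2⟩)
    · exact Or.inl ⟨h2, h1, i, by rw [hi, hinv]⟩
    · exact Or.inr ⟨h1.symm, h2.symm⟩⟩
  loopless := ⟨by
    rintro p (⟨h1, h2, i, hi⟩ | ⟨h1, h2⟩)
    · exact hne i _ hi.symm
    · omega⟩

open Classical in
/-- neighbours in `rayGraph` -/
noncomputable def rayNbr {T : Type} (τ : Fin 5 → T → T) (p : T × ℕ) : Finset (T × ℕ) :=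
  if p.2 = 0 then insert (p.1, 1) (Finset.univ.image (fun i => (τ i p.1, 0)))
  else {(p.1, p.2 - 1), (p.1, p.2 + 1)}

variable {T : Type} (τ : Fin 5 → T → T) (hinv : ∀ i x, τ i (τ i x) = x) (hne : ∀ i x, τ i x ≠ x)
  (hinj : ∀ x, Function.Injective (fun i => τ i x))

lemma mem_rayNbr (u v : T × ℕ) : u ∈ rayNbr τ v ↔ (rayGraph τ hinv hne).Adj v u := by
  rcases u with ⟨x, n⟩
  rcases v with ⟨y, m⟩
  simp only [rayNbr, rayGraph]
  by_cases hm : m = 0
  · subst hm
    simp only [if_true, Finset.mem_insert, Finset.mem_image, Finset.mem_univ, true_and, Prod.mk.injEq]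
    constructor
    · rintro (⟨rfl, rfl⟩ | ⟨i, h1, h2⟩)
      · right; simp
      · left; exact ⟨h2.symm, i, h1.symm⟩
    · rintro (⟨h1, i, h2⟩ | ⟨h1, h2⟩)
      · right; exact ⟨i, h2.symm, h1.symm⟩
      · left; refine ⟨h1.symm, by omega⟩
  · simp only [if_neg hm, Finset.mem_insert, Finset.mem_singleton, Prod.mk.injEq]
    constructor
    · rintro (⟨rfl, rfl⟩ | ⟨rfl, rfl⟩)
      · right; refine ⟨rfl, by omega⟩
      · right; simp
    · rintro (⟨h1, _⟩ | ⟨h1, h2 | h2⟩)
      · exact absurd h1 hm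
      · right; exact ⟨h1.symm, h2⟩
      · left; exact ⟨h1.symm, by omega⟩

lemma rayNbr_card (v : T × ℕ) : (rayNbr τ v).card ≤ 6 := by
  classical
  unfold rayNbr
  split_ifs
  · refine (Finset.card_insert_le _ _).trans ?_
    have := Finset.card_image_le (s := Finset.univ) (f := fun i : Fin 5 => (τ i v.1, 0))
    simp at this
    omega
  · refine (Finset.card_insert_le _ _).trans ?_
    simp

include hinv hne in
lemma rayNbr_symm (u v : T × ℕ) : u ∈ rayNbr τ v ↔ v ∈ rayNbr τ u := by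
  rw [mem_rayNbr τ hinv hne, mem_rayNbr τ hinv hne, SimpleGraph.adj_comm]

include hinj in
lemma sum_rayNbr_zero {M : Type} [AddCommMonoid M] (x : T) (g : T × ℕ → M) :
    ∑ u ∈ rayNbr τ (x, 0), g u = g (x, 1) + ∑ i, g (τ i x, 0) := by
  classical
  unfold rayNbr
  simp only [if_true]
  rw [Finset.sum_insert, Finset.sum_image]
  · intro i _ j _ h
    exact hinj x (by simpa using h)
  · simp

lemma sum_rayNbr_succ (x : T) (n : ℕ) (g : T × ℕ → ℝ) :
    ∑ u ∈ rayNbr τ (x, n + 1), g u = g (x, n) + g (x, n + 2) := by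
  classical
  unfold rayNbr
  simp only [Nat.succ_ne_zero, if_false, Nat.add_sub_cancel]
  rw [Finset.sum_pair]
  simp
  omega

lemma ray_uniformlyAmenable : (ofSimple (rayGraph τ hinv hne)).UniformlyAmenable := by
  classical
  apply simple_uniformlyAmenable
  intro ε hε
  obtain ⟨K, hK⟩ := exists_nat_ge (7 / ε)
  refine ⟨2 * K + 1, ?_⟩
  rintro ⟨x, n⟩
  let F : Finset (T × ℕ) := (Finset.Icc (n - K) (n + K)).image (fun m => (x, m))
  have hF : ∀ q : T × ℕ, q ∈ F ↔ q.1 = x ∧ n - K ≤ q.2 ∧ q.2 ≤ n + K := by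
    rintro ⟨y, m⟩
    simp only [F, Finset.mem_image, Finset.mem_Icc, Prod.mk.injEq]
    constructor
    · rintro ⟨a, ⟨h1, h2⟩, rfl, rfl⟩; exact ⟨rfl, h1, h2⟩
    · rintro ⟨rfl, h1, h2⟩; exact ⟨m, ⟨h1, h2⟩, rfl, rfl⟩
  have hcard : F.card = n + K + 1 - (n - K) := by
    rw [Finset.card_image_of_injective _ (fun a b h => by simpa using h), Nat.card_Icc]
  refine ⟨F, (hF _).2 ⟨rfl, by simp, by simp⟩, by rw [hcard]; omega, ?_⟩
  have hsub : bdry (rayGraph τ hinv hne) (F : Set (T × ℕ)) ⊆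
      ((insert (x, n + K + 1) (insert (x, n - K - 1)
        (Finset.univ.image (fun i => (τ i x, 0)))) : Finset (T × ℕ)) : Set (T × ℕ)) := by
    rintro ⟨y, m⟩ ⟨h2, ⟨z, l⟩, hz, hadj⟩
    have hz' := (hF _).1 (Finset.mem_coe.1 hz)
    have h2' : ¬ (y = x ∧ n - K ≤ m ∧ m ≤ n + K) := fun h => h2 (Finset.mem_coe.2 ((hF _).2 h))
    simp only at hz'
    obtain ⟨rfl, h3, h4⟩ := hz'
    rw [Finset.mem_coe, Finset.mem_insert, Finset.mem_insert, Finset.mem_image]
    simp only [Prod.mk.injEq, Finset.mem_univ, true_and]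
    rcases hadj with ⟨h5, h6, i, hi⟩ | ⟨h5, h6⟩
    · right; right; exact ⟨i, hi.symm, h6.symm⟩
    · simp only at h5 h6
      subst h5
      have h7 : ¬ (n - K ≤ m ∧ m ≤ n + K) := fun h => h2' ⟨rfl, h⟩
      rcases h6 with h6 | h6
      · left; exact ⟨rfl, by omega⟩
      · right; left; exact ⟨rfl, by omega⟩
  have hle : (bdry (rayGraph τ hinv hne) (F : Set (T × ℕ))).ncard ≤ 7 := by
    refine (Set.ncard_le_ncard hsub (Finset.finite_toSet _)).trans ?_
    rw [Set.ncard_coe_finset]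
    refine (Finset.card_insert_le _ _).trans ?_
    have h1 := Finset.card_insert_le (x, n - K - 1) (Finset.univ.image (fun i => (τ i x, 0)))
    have h2 := Finset.card_image_le (s := Finset.univ) (f := fun i : Fin 5 => (τ i x, 0))
    simp only [Finset.card_univ, Fintype.card_fin] at h2
    omega
  have h7 : (7 : ℝ) ≤ ε * (K + 1) := by
    have := (div_le_iff₀ hε).1 hK
    nlinarith
  have h8 : (K : ℝ) + 1 ≤ (F.card : ℝ) := by
    rw [hcard]
    have : K + 1 ≤ n + K + 1 - (n - K) := by omega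
    exact_mod_cast this
  calc ((bdry (rayGraph τ hinv hne) (F : Set (T × ℕ))).ncard : ℝ)
      ≤ 7 := by exact_mod_cast hle
    _ ≤ ε * (K + 1) := h7
    _ ≤ ε * (F.card : ℝ) := by gcongr

end Ray

/-! ### The two graphs -/

/-- the covering graph: the 5-regular tree with a ray attached to every vertex -/
abbrev G₁ : SimpleGraph (Word × ℕ) := rayGraph Word.toggle Word.toggle_toggle Word.toggle_ne

/-- the covered graph: the 5-dimensional cube with a ray attached to every vertex -/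
abbrev G₂ : SimpleGraph ((Fin 5 → Bool) × ℕ) := rayGraph flip5 flip5_flip5 flip5_ne

/-- words of length at most `k` -/
noncomputable def words (k : ℕ) : Finset Word :=
  (Set.Finite.preimage (Subtype.val_injective.injOn) (List.finite_length_le (Fin 5) k)).toFinset

lemma mem_words (k : ℕ) (w : Word) : w ∈ words k ↔ w.1.length ≤ k := by
  simp [words]

/-- the Folner sets -/
noncomputable def fol (k : ℕ) : Finset (Word × ℕ) := words k ×ˢ Finset.range (k + 1)

lemma mem_fol (k : ℕ) (p : Word × ℕ) : p ∈ fol k ↔ p.1.1.length ≤ k ∧ p.2 < k + 1 := by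
  rw [fol, Finset.mem_product, mem_words, Finset.mem_range]

lemma amenable_G₁ : (ofSimple G₁).Amenable := by
  classical
  apply simple_amenable G₁ fol
  · intro k l hkl p hp
    rw [mem_fol] at hp ⊢
    omega
  · rintro ⟨w, n⟩
    refine ⟨w.1.length + n, ?_⟩
    rw [mem_fol]
    constructor <;> simp
  · have hbound : ∀ k : ℕ, ((bdry G₁ (fol k : Set (Word × ℕ))).ncard : ℝ) / ((fol k).card : ℝ)
        ≤ 6 / ((k : ℝ) + 1) := by
      intro k
      have hsub : bdry G₁ (fol k : Set (Word × ℕ)) ⊆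
        (((words k ×ˢ (Finset.univ : Finset (Option (Fin 5)))).image
          (fun p => match p.2 with
            | none => (p.1, k + 1)
            | some i => (Word.toggle i p.1, 0)) : Finset (Word × ℕ)) : Set (Word × ℕ)) := by
        rintro ⟨y, m⟩ ⟨h2, ⟨z, l⟩, hz, hadj⟩
        rw [Finset.mem_coe, mem_fol] at hz h2
        simp only at hz h2
        rw [Finset.mem_coe, Finset.mem_image]
        have hzw : z ∈ words k := (mem_words k z).2 hz.1
        rcases hadj with ⟨h5, h6, i, hi⟩ | ⟨h5, h6⟩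
        · refine ⟨(z, some i), by simp [hzw], ?_⟩
          simp only at h6 hi ⊢
          rw [hi, h6]
        · simp only at h5 h6
          subst h5
          refine ⟨(z, none), by simp [hzw], ?_⟩
          have : m = k + 1 := by
            have h7 : ¬ m < k + 1 := fun h => h2 ⟨hz.1, h⟩
            omega
          simp only
          rw [this]
      have hle := Set.ncard_le_ncard hsub (Finset.finite_toSet _)
      rw [Set.ncard_coe_finset] at hle
      have hle2 := hle.trans Finset.card_image_le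
      rw [Finset.card_product] at hle2
      simp only [Finset.card_univ, Fintype.card_option, Fintype.card_fin] at hle2
      have hpos : 0 < (words k).card := by
        rw [Finset.card_pos]
        exact ⟨⟨[], List.isChain_nil⟩, by rw [mem_words]; simp⟩
      have hposR : (0 : ℝ) < (words k).card := by exact_mod_cast hpos
      have hcard : ((fol k).card : ℝ) = (words k).card * ((k : ℝ) + 1) := by
        rw [fol, Finset.card_product, Finset.card_range]
        push_cast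
        ring
      have hle3 : ((bdry G₁ (fol k : Set (Word × ℕ))).ncard : ℝ) ≤ (words k).card * 6 := by
        exact_mod_cast hle2
      rw [hcard, div_le_div_iff₀ (by positivity) (by positivity)]
      have hk : (0 : ℝ) ≤ (k : ℝ) + 1 := by positivity
      calc ((bdry G₁ (fol k : Set (Word × ℕ))).ncard : ℝ) * ((k : ℝ) + 1)
          ≤ ((words k).card * 6) * ((k : ℝ) + 1) := mul_le_mul_of_nonneg_right hle3 hk
        _ = 6 * ((words k).card * ((k : ℝ) + 1)) := by ring
    refine squeeze_zero (fun k => by positivity) hbound ?_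
    have := tendsto_one_div_add_atTop_nhds_zero_nat (𝕜 := ℝ)
    have h6 := this.const_mul 6
    simp only [mul_zero] at h6
    refine h6.congr (fun k => by ring)

lemma connected_G₁ : (ofSimple G₁).Connected := by
  have hsymm : ∀ u v : Word × ℕ, Relation.ReflTransGen G₁.Adj u v → Relation.ReflTransGen G₁.Adj v u := by
    intro u v h
    induction h with
    | refl => exact Relation.ReflTransGen.refl
    | tail _ hbc ih => exact Relation.ReflTransGen.head (G₁.symm.symm _ _ hbc) ih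
  have h0 : ∀ l : ℕ, ∀ w : Word, w.1.length = l →
      Relation.ReflTransGen G₁.Adj (w, 0) (⟨[], List.isChain_nil⟩, 0) := by
    intro l
    induction l with
    | zero =>
      rintro ⟨w, hw⟩ h
      simp only [List.length_eq_zero_iff] at h
      subst h
      exact Relation.ReflTransGen.refl
    | succ l ih =>
      rintro ⟨w, hw⟩ h
      cases w with
      | nil => simp at h
      | cons a w' =>
        simp only [List.length_cons, Nat.add_right_cancel_iff] at h
        refine Relation.ReflTransGen.head ?_ (ih ⟨w', hw.tail⟩ h)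
        left
        refine ⟨rfl, rfl, a, ?_⟩
        simp [Word.toggle]
  have h1 : ∀ (n : ℕ) (w : Word), Relation.ReflTransGen G₁.Adj (w, n) (w, 0) := by
    intro n
    induction n with
    | zero => intro w; exact Relation.ReflTransGen.refl
    | succ n ih =>
      intro w
      refine Relation.ReflTransGen.head ?_ (ih w)
      right
      exact ⟨rfl, Or.inr rfl⟩
  refine ⟨⟨(⟨[], List.isChain_nil⟩, 0)⟩, ?_⟩
  intro u v
  have h : Relation.ReflTransGen G₁.Adj u v := by
    rcases u with ⟨w, n⟩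
    rcases v with ⟨w', n'⟩
    exact ((h1 n w).trans (h0 _ w rfl)).trans (hsymm _ _ ((h1 n' w').trans (h0 _ w' rfl)))
  exact Relation.ReflTransGen.mono (fun a b hab => (simple_adj G₁ a b).2 hab) _ _ h

/-- the covering on vertices -/
def φ (p : Word × ℕ) : (Fin 5 → Bool) × ℕ := (cov p.1, p.2)

lemma φ_hom : ∀ u v, G₁.Adj u v → G₂.Adj (φ u) (φ v) := by
  rintro ⟨w, n⟩ ⟨w', n'⟩ (⟨h1, h2, i, hi⟩ | ⟨h1, h2⟩)
  · left
    simp only at h1 h2 hi
    refine ⟨h1, h2, i, ?_⟩
    simp only [φ]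
    rw [hi, cov_toggle]
  · right
    simp only at h1 h2
    exact ⟨by simp only [φ]; rw [h1], h2⟩

lemma φ_covering : IsCovering (ofSimple G₁) (ofSimple G₂) φ (edgeMap G₁ G₂ φ φ_hom) := by
  apply simple_covering
  · rintro ⟨x, n⟩
    obtain ⟨w, rfl⟩ := cov_surj x
    exact ⟨(w, n), rfl⟩
  · rintro ⟨w, n⟩ ⟨w', n'⟩ ⟨w'', n''⟩ h h' heq
    simp only [φ, Prod.mk.injEq] at heq
    obtain ⟨h3, rfl⟩ := heq
    rcases h with ⟨h1, h2, i, hi⟩ | ⟨h1, h2⟩
    · rcases h' with ⟨h1', h2', i', hi'⟩ | ⟨h1', h2'⟩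
      · simp only at hi hi'
        rw [hi, hi', cov_toggle, cov_toggle] at h3
        have := flip5_inj _ h3
        rw [hi, hi', this]
      · simp only at h1 h2 h2'
        omega
    · rcases h' with ⟨h1', h2', i', hi'⟩ | ⟨h1', h2'⟩
      · simp only at h1' h2' h2
        omega
      · simp only at h1 h1'
        rw [← h1, ← h1']
  · rintro ⟨w, n⟩ ⟨x, m⟩ (⟨h1, h2, i, hi⟩ | ⟨h1, h2⟩)
    · refine ⟨(Word.toggle i w, m), Or.inl ⟨h1, h2, i, rfl⟩, ?_⟩
      simp only [φ] at hi ⊢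
      rw [cov_toggle, hi]
    · simp only [φ] at h1 h2
      refine ⟨(w, m), Or.inr ⟨rfl, h2⟩, ?_⟩
      simp only [φ]
      rw [h1]

/-! ### The operators -/

lemma exists_H₁ : ∃ H₁ : lp (fun _ : Word × ℕ => ℂ) 2 →L[ℂ] lp (fun _ : Word × ℕ => ℂ) 2,
    (∀ f v, H₁ f v = ∑ u ∈ rayNbr Word.toggle v, f u) ∧ ‖H₁‖ < 5 := by
  set r : ℝ := (Real.sqrt 5)⁻¹ with hr
  have h5 : (0 : ℝ) < Real.sqrt 5 := by positivity
  have hsq : Real.sqrt 5 ^ 2 = 5 := Real.sq_sqrt (by norm_num)
  have hr0 : 0 < r := by positivity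
  have hr2 : 5 * r ^ 2 = 1 := by
    rw [hr, inv_pow, hsq]; norm_num
  have hrinv : r⁻¹ = Real.sqrt 5 := by rw [hr, inv_inv]
  have h5r : 5 * r = r⁻¹ := by
    field_simp
    exact hr2
  have hrle : r ≤ r⁻¹ := by
    rw [← h5r]; linarith
  obtain ⟨A, hA, hn⟩ := exists_adjOp (rayNbr Word.toggle)
    (rayNbr_symm Word.toggle Word.toggle_toggle Word.toggle_ne)
    (fun p => r ^ (p.1.1.length + p.2)) (fun p => by positivity) (2 * r⁻¹) (by positivity) (by
      rintro ⟨w, n⟩
      cases n with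
      | zero =>
        rw [sum_rayNbr_zero Word.toggle Word.toggle_inj]
        have h := Word.sum_pow w r hr0 hr2
        simp only [add_zero]
        have : r ^ (w.1.length + 1) = r * r ^ w.1.length := by ring
        rw [this]
        have hp : 0 < r ^ w.1.length := by positivity
        calc r * r ^ w.1.length + ∑ i, r ^ (Word.toggle i w).1.length
            ≤ r * r ^ w.1.length + (r⁻¹ + 4 * r) * r ^ w.1.length := by linarith
          _ = (r⁻¹ + 5 * r) * r ^ w.1.length := by ring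
          _ = 2 * r⁻¹ * r ^ w.1.length := by rw [h5r]; ring
      | succ n =>
        rw [sum_rayNbr_succ]
        simp only
        have hp : 0 < r ^ (w.1.length + (n + 1)) := by positivity
        have e1 : r ^ (w.1.length + n) = r⁻¹ * r ^ (w.1.length + (n + 1)) := by
          field_simp
          ring
        have e2 : r ^ (w.1.length + (n + 2)) = r * r ^ (w.1.length + (n + 1)) := by ring
        rw [e1, e2]
        nlinarith)
  refine ⟨A, hA, lt_of_le_of_lt hn ?_⟩
  rw [hrinv]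
  nlinarith

lemma exists_H₂ : ∃ H₂ : lp (fun _ : (Fin 5 → Bool) × ℕ => ℂ) 2 →L[ℂ] lp (fun _ : (Fin 5 → Bool) × ℕ => ℂ) 2,
    (∀ f v, H₂ f v = ∑ u ∈ rayNbr flip5 v, f u) ∧ 5 ≤ ‖H₂‖ := by
  classical
  obtain ⟨A, hA, -⟩ := exists_adjOp (rayNbr flip5)
    (rayNbr_symm flip5 flip5_flip5 flip5_ne)
    (fun _ => 1) (fun p => by positivity) 6 (by positivity) (by
      intro v
      have := rayNbr_card flip5 v
      simp only [Finset.sum_const, nsmul_eq_mul, mul_one]
      exact_mod_cast this)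
  refine ⟨A, hA, ?_⟩
  let S : Finset ((Fin 5 → Bool) × ℕ) := Finset.univ ×ˢ {0}
  let u : lp (fun _ : (Fin 5 → Bool) × ℕ => ℂ) 2 := ∑ p ∈ S, lp.single 2 p (1 : ℂ)
  have hu : ∀ p, u p = if p.2 = 0 then 1 else 0 := by
    rintro ⟨x, n⟩
    simp only [u, lp.coeFn_sum, Finset.sum_apply, lp.single_apply, Pi.single_apply]
    rw [Finset.sum_ite_eq]
    simp [S, eq_comm]
  have hpt : ∀ p, (25 : ℝ) * ‖u p‖ ^ 2 ≤ ‖A u p‖ ^ 2 := by
    rintro ⟨x, n⟩
    cases n with
    | zero =>
      have h1 : A u (x, 0) = 5 := by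
        rw [hA]
        rw [sum_rayNbr_zero flip5 flip5_inj]
        simp [hu]
      rw [h1, hu]
      norm_num
    | succ n =>
      rw [hu]
      simp
  have hnorm : 5 * ‖u‖ ≤ ‖A u‖ := by
    have h1 : ENNReal.ofReal (25 * ‖u‖ ^ 2) ≤ ENNReal.ofReal (‖A u‖ ^ 2) := by
      rw [ENNReal.ofReal_mul (by norm_num), lp_norm_sq, lp_norm_sq, ← ENNReal.tsum_mul_left]
      apply ENNReal.tsum_le_tsum
      intro p
      rw [← ENNReal.ofReal_mul (by norm_num)]
      exact ENNReal.ofReal_le_ofReal (hpt p)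
    have h2 := (ENNReal.ofReal_le_ofReal_iff (by positivity)).1 h1
    have h3 : (5 * ‖u‖) ^ 2 ≤ ‖A u‖ ^ 2 := by rw [mul_pow]; norm_num; exact h2
    exact (sq_le_sq₀ (by positivity) (norm_nonneg _)).1 h3
  have hu0 : 0 < ‖u‖ := by
    rw [norm_pos_iff]
    intro h
    have := hu (fun _ => false, 0)
    rw [h] at this
    simp at this
  have := A.le_opNorm u
  have h6 : 5 * ‖u‖ ≤ ‖A‖ * ‖u‖ := hnorm.trans this
  exact le_of_mul_le_mul_right h6 hu0

/-- **Main theorem.** There are weighted graphs `Γ₁`, `Γ₂`, both simple, uniformly bounded and with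
all weights equal to one, such that `Γ₁` is connected, amenable (even uniformly amenable) and covers
`Γ₂`, but the spectrum of the Laplace type operator of `Γ₂` is not contained in that of `Γ₁`. -/
theorem result : ∃ (Γ₁ Γ₂ : WGraph) (φV : Γ₁.V → Γ₂.V) (φE : Γ₁.E → Γ₂.E),
    IsCovering Γ₁ Γ₂ φV φE ∧
    Γ₁.UniformlyBounded ∧ Γ₂.UniformlyBounded ∧ Γ₁.Connected ∧ Γ₁.Amenable ∧
    Γ₁.UniformlyAmenable ∧ Γ₁.IsSimpleUnweighted ∧ Γ₂.IsSimpleUnweighted ∧
    ∃ (H₁ : Γ₁.Op) (H₂ : Γ₂.Op),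
      Γ₁.IsLaplace H₁ ∧ Γ₂.IsLaplace H₂ ∧ ∃ z : ℂ, z ∈ opSpectrum H₂ ∧ z ∉ opSpectrum H₁ := by
  obtain ⟨H₁, hH₁, hn₁⟩ := exists_H₁
  obtain ⟨H₂, hH₂, hn₂⟩ := exists_H₂
  have mem₁ := mem_rayNbr Word.toggle Word.toggle_toggle Word.toggle_ne
  have mem₂ := mem_rayNbr flip5 flip5_flip5 flip5_ne
  have sa₁ : IsSelfAdjoint H₁ := adjOp_selfAdjoint (rayNbr Word.toggle)
    (rayNbr_symm Word.toggle Word.toggle_toggle Word.toggle_ne) H₁ hH₁
  have sa₂ : IsSelfAdjoint H₂ := adjOp_selfAdjoint (rayNbr flip5)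
    (rayNbr_symm flip5 flip5_flip5 flip5_ne) H₂ hH₂
  have hnt : Nontrivial (lp (fun _ : (Fin 5 → Bool) × ℕ => ℂ) 2) := by
    refine ⟨⟨lp.single 2 (fun _ => false, 0) 1, 0, fun h => ?_⟩⟩
    have := congrArg (fun f : lp (fun _ : (Fin 5 → Bool) × ℕ => ℂ) 2 => f (fun _ => false, 0)) h
    simp at this
  have hnt1 : Nontrivial (lp (fun _ : Word × ℕ => ℂ) 2) := by
    refine ⟨⟨lp.single 2 (⟨[], List.isChain_nil⟩, 0) 1, 0, fun h => ?_⟩⟩
    have := congrArg (fun f : lp (fun _ : Word × ℕ => ℂ) 2 => f (⟨[], List.isChain_nil⟩, 0)) h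
    simp at this
  obtain ⟨z, hz, hzn⟩ := spectrum.exists_nnnorm_eq_spectralRadius H₂
  rw [sa₂.spectralRadius_eq_nnnorm] at hzn
  have hzn' : ‖z‖ = ‖H₂‖ := by
    have : ‖z‖₊ = ‖H₂‖₊ := by exact_mod_cast hzn
    exact congrArg NNReal.toReal this
  have hz1 : z ∉ spectrum ℂ H₁ := by
    intro hz1
    have := spectrum.norm_le_norm_of_mem hz1
    rw [hzn'] at this
    linarith
  exact ⟨ofSimple G₁, ofSimple G₂, φ, edgeMap G₁ G₂ φ φ_hom, φ_covering,
    simple_uniformlyBounded G₁ _ mem₁ 6 (rayNbr_card _), simple_uniformlyBounded G₂ _ mem₂ 6 (rayNbr_card _),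
    connected_G₁, amenable_G₁, ray_uniformlyAmenable _ _ _, simple_isSimple _, simple_isSimple _,
    H₁, H₂, simple_laplace G₁ _ mem₁ H₁ hH₁, simple_laplace G₂ _ mem₂ H₂ hH₂, z, hz, hz1⟩

end Pool.Agent.Results.MP_5b767b_an.AmenableCover
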